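import Pool.Agent.KTB.StmtsKA

/-!
Squad KTB, row IDN: identities.
-/

set_option autoImplicit false

namespace Pool.Agent.KTB.H66

open Pool.Agent.KTB Finset
open scoped Classical

theorem idn : IdnStmt := by
  intro ι T _ D S
  have hsub : ∀ (i : T) (v : ι → ℚ), (∀ a, a ∉ S → v a = 0) →
      ∑ a ∈ S, (D.x i a : ℚ) * v a = ∑ a, (D.x i a : ℚ) * v a := by
    intro i v hv
    refine Finset.sum_subset (Finset.subset_univ S) fun a _ ha => ?_
    rw [hv a ha, mul_zero]
  have h1 : ∀ l, D.Sol S l → ∀ i, ∑ a ∈ S, (D.x i a : ℚ) * l a = 1 := by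
    intro l hl i
    rw [hsub i l hl.2]
    have e1 := D.h0 i
    have e2 := D.h1 _ hl.1 i
    have e3 : ∑ a, (D.x i a : ℚ) * l a =
        ∑ a, (D.x i a : ℚ) * D.l0 a + ∑ a, (D.x i a : ℚ) * (l - D.l0) a := by
      rw [← Finset.sum_add_distrib]
      refine Finset.sum_congr rfl fun a _ => ?_
      rw [Pi.sub_apply]
      ring
    rw [e3, e1, e2, add_zero]
  have h2 : ∀ ρ ∈ D.R S, ∀ i, ∑ a ∈ S, (D.x i a : ℚ) * ρ a = 0 := by
    intro ρ hρ i
    rw [hsub i ρ hρ.2]
    exact D.h1 ρ hρ.1 i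
  refine ⟨h1, h2, ?_, ?_, ?_⟩
  · intro l l' hl hl'
    refine ⟨?_, fun a ha => ?_⟩
    · have h3 : l' - l = (l' - D.l0) - (l - D.l0) := by abel
      rw [h3]
      exact D.rel.sub_mem hl'.1 hl.1
    · rw [Pi.sub_apply, hl.2 a ha, hl'.2 a ha, sub_zero]
  · intro l hl ρ hρ
    refine ⟨?_, fun a ha => ?_⟩
    · have h3 : l + ρ - D.l0 = (l - D.l0) + ρ := by abel
      rw [h3]
      exact D.rel.add_mem hl.1 hρ.1
    · rw [Pi.add_apply, hl.2 a ha, hρ.2 a ha, add_zero]
  · rintro k y y' ⟨hy, hy', hne, hk, hk', h0⟩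
    have hsum : ∀ v : ι → ℚ, ∑ a ∈ S, (D.x k a : ℚ) * v a = v y + v y' := by
      intro v
      have h3 : ∑ a ∈ S, (D.x k a : ℚ) * v a = ∑ a ∈ ({y, y'} : Finset ι), (D.x k a : ℚ) * v a := by
        symm
        refine Finset.sum_subset ?_ ?_
        · intro a ha
          rcases Finset.mem_insert.mp ha with rfl | ha
          · exact hy
          · rw [Finset.mem_singleton.mp ha]
            exact hy'
        · intro a ha hna
          have h4 : a ≠ y := fun h => hna (h ▸ Finset.mem_insert_self _ _)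
          have h5 : a ≠ y' := fun h => hna (h ▸ Finset.mem_insert_of_mem (Finset.mem_singleton_self _))
          rw [h0 a ha h4 h5, Nat.cast_zero, zero_mul]
      rw [h3, Finset.sum_pair hne, hk, hk', Nat.cast_one, one_mul, one_mul]
    refine ⟨fun l hl => ?_, fun ρ hρ => ?_⟩
    · rw [← hsum l]
      exact h1 l hl k
    · rw [← hsum ρ]
      exact h2 ρ hρ k

end Pool.Agent.KTB.H66
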