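import Pool.Agent.KTB.StmtsKA

/-!
Squad KTB, row TCH: the touching elements are in every valid set.
-/

set_option autoImplicit false

namespace Pool.Agent.KTB.H66

open Pool.Agent.KTB Finset
open scoped Classical

theorem tch (ray : RayStmt) : TchStmt := by
  intro ι T _ D S R R' p p' f f' M M' hR hR' hsub hM hM'
  obtain ⟨hRne, hRay, -⟩ := hR
  obtain ⟨hR'ne, hRay', -⟩ := hR'
  obtain ⟨-, ⟨s, hs1, -, -, hs2⟩, -⟩ := ray ι T D S R p f hRay hRne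
  obtain ⟨-, ⟨s', hs1', -, -, hs2'⟩, -⟩ := ray ι T D S R' p' f' hRay' hR'ne
  have hmono : ∀ Q : Finset ι, ∀ ρ ∈ D.R (S \ Q), ρ ∈ D.R S := by
    intro Q ρ hρ
    exact ⟨hρ.1, fun a ha => hρ.2 a fun h => ha (Finset.mem_sdiff.mp h).1⟩
  obtain ⟨r, hr⟩ := hR'ne
  have hpr : 0 < p r := (hRay.2.1 r (hsub hr)).1
  have hpr' : 0 < p' r := (hRay'.2.1 r hr).1
  have hiff : ∀ ρ ∈ D.R S, (ρ ∈ D.R (S \ R) ↔ ρ ∈ D.R (S \ R')) := by
    intro ρ hρ
    rw [hs2 ρ hρ, hs2' ρ hρ]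
    have h1 := hs1 ρ hρ r (hsub hr)
    have h2 := hs1' ρ hρ r hr
    constructor
    · intro h
      rw [h, mul_zero] at h1
      rw [h1] at h2
      exact (mul_eq_zero.mp h2.symm).resolve_left hpr'.ne'
    · intro h
      rw [h, mul_zero] at h2
      rw [h2] at h1
      exact (mul_eq_zero.mp h1.symm).resolve_left hpr.ne'
  have hReq : ∀ ρ, ρ ∈ D.R (S \ R) ↔ ρ ∈ D.R (S \ R') := by
    intro ρ
    constructor
    · intro h
      exact (hiff ρ (hmono R ρ h)).mp h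
    · intro h
      exact (hiff ρ (hmono R' ρ h)).mpr h
  have hsd : S \ R ⊆ S \ R' := Finset.sdiff_subset_sdiff (Finset.Subset.refl S) hsub
  have hN : D.N (S \ R') = D.N (S \ R) := by
    ext a
    simp only [Dat.N, Finset.mem_filter]
    constructor
    · rintro ⟨_, ρ, hρ, hρa⟩
      have h2 := (hReq ρ).mpr hρ
      refine ⟨?_, ρ, h2, hρa⟩
      by_contra hna
      exact hρa (h2.2 a hna)
    · rintro ⟨ha, ρ, hρ, hρa⟩
      exact ⟨hsd ha, ρ, (hReq ρ).mp hρ, hρa⟩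
  have hNs : ∀ a ∈ D.N (S \ R), a ∈ S \ R := fun a ha => (Finset.mem_filter.mp ha).1
  have hPM' := hM'.2.1
  rw [hN] at hPM'
  have hPM : D.PM (S \ R) (D.N (S \ R)) M' := by
    refine ⟨fun k hk => ?_, hPM'.2⟩
    obtain ⟨y, hy, y', hy', hc⟩ := hPM'.1 k hk
    exact ⟨y, hy, y', hy', hNs y hy, hNs y' hy', hc.2.2.1, hc.2.2.2.1, hc.2.2.2.2.1,
      fun b hb => hc.2.2.2.2.2 b (hsd hb)⟩
  have hMM : M' = M := hM.2.2 M' hPM
  refine ⟨hMM, fun k hk b hb hkb => ?_⟩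
  rw [← hMM] at hk
  obtain ⟨y, hy, y', hy', hc⟩ := hPM'.1 k hk
  by_contra hbR'
  have hbS : b ∈ S \ R' := Finset.mem_sdiff.mpr ⟨hRay.1 hb, hbR'⟩
  by_cases h1 : b = y
  · exact (Finset.mem_sdiff.mp (hNs y hy)).2 (h1 ▸ hb)
  · by_cases h2 : b = y'
    · exact (Finset.mem_sdiff.mp (hNs y' hy')).2 (h2 ▸ hb)
    · exact hkb (hc.2.2.2.2.2 b hbS h1 h2)

end Pool.Agent.KTB.H66
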