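import Pool.Agent.KTB.StmtsKB

/-!
Squad KTB, row TGB: unions of tight sets are tight.
-/

set_option autoImplicit false

namespace Pool.Agent.KTB.H66

open Pool.Agent.KTB Finset
open scoped Classical

theorem tgb (_tga : TgaStmt) : TgbStmt := by
  intro ι κ r E K hr C C' y hC hC' hy hiC hiC'
  have hsub : C ∪ C' ⊆ K := Finset.union_subset hC.1 hC'.1
  have hne : (C ∪ C').Nonempty := hC.2.1.mono Finset.subset_union_left
  refine ⟨hsub, hne, le_antisymm ?_ (hr.irr _ hsub hne)⟩
  have hrex : rexc E (C ∪ C') + rexc E (C ∩ C') = rexc E C + rexc E C' :=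
    Finset.sum_union_inter
  have hU : (C ∪ C').biUnion E = C.biUnion E ∪ C'.biUnion E := by
    ext a
    simp only [Finset.mem_biUnion, Finset.mem_union]
    constructor
    · rintro ⟨k, hk | hk, ha⟩
      · exact Or.inl ⟨k, hk, ha⟩
      · exact Or.inr ⟨k, hk, ha⟩
    · rintro (⟨k, hk, ha⟩ | ⟨k, hk, ha⟩)
      · exact ⟨k, Or.inl hk, ha⟩
      · exact ⟨k, Or.inr hk, ha⟩
  have e1 := hC.2.2
  have e2 := hC'.2.2
  rw [hU]
  rcases Finset.eq_empty_or_nonempty (C ∩ C') with h0 | h0
  · have h1 := hr.sub (insert y (C.biUnion E)) (insert y (C'.biUnion E))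
    have h2 : r {y} ≤ r (insert y (C.biUnion E) ∩ insert y (C'.biUnion E)) := by
      refine hr.mono _ _ ?_
      intro a ha
      rw [Finset.mem_singleton] at ha
      rw [ha]
      exact Finset.mem_inter.mpr ⟨Finset.mem_insert_self _ _, Finset.mem_insert_self _ _⟩
    have h3 : r (C.biUnion E ∪ C'.biUnion E) ≤
        r (insert y (C.biUnion E) ∪ insert y (C'.biUnion E)) :=
      hr.mono _ _ (Finset.union_subset_union (Finset.subset_insert _ _)
        (Finset.subset_insert _ _))
    have h4 : rexc E (C ∩ C') = 0 := by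
      rw [h0]
      exact Finset.sum_empty
    unfold Inc at hiC hiC'
    omega
  · have h1 := hr.sub (C.biUnion E) (C'.biUnion E)
    have h2 : r ((C ∩ C').biUnion E) ≤ r (C.biUnion E ∩ C'.biUnion E) := by
      refine hr.mono _ _ ?_
      intro a ha
      obtain ⟨k, hk, hka⟩ := Finset.mem_biUnion.mp ha
      rw [Finset.mem_inter] at hk
      exact Finset.mem_inter.mpr ⟨Finset.mem_biUnion.mpr ⟨k, hk.1, hka⟩,
        Finset.mem_biUnion.mpr ⟨k, hk.2, hka⟩⟩
    have h3 := hr.irr _ ((Finset.inter_subset_left).trans hC.1) h0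
    omega

end Pool.Agent.KTB.H66
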